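import Pool.Agent.H35.KB.Stmts

/-!
# Project KB, module EB2: the bound of order two from Part A
-/

set_option autoImplicit false

open MeasureTheory Set Filter Topology
open scoped ContDiff

namespace Pool.Agent.H35.KB

open Pool.Agent.H84 Pool.Agent.H84.Sym Pool.Agent.H84.Sym.P2x Pool.Agent.H19.KL
open Pool.Agent.H73.KG Pool.Agent.H20.KH Pool.Agent.H52.KB
open Pool.Agent.H55.KB (WS spl FL gN GG ML)

section measures

variable (E : Type) [NormedAddCommGroup E] [InnerProductSpace ℝ E]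
    [FiniteDimensional ℝ E] [MeasurableSpace E] [BorelSpace E]

theorem EB2_gc_li (w : E) : GC (li w) := by
  refine ⟨by unfold li; fun_prop, ?_⟩
  have h : Gr (fun x : E => ‖w‖ * ‖x‖) := Gr.mul (Gr.of_bdd (A := |‖w‖|) fun _ => le_rfl) Gr.nrm
  refine Gr.of_le h fun x => ?_
  rw [abs_of_nonneg (by positivity : 0 ≤ ‖w‖ * ‖x‖)]
  exact abs_real_inner_le_norm w x

theorem eb2_thm (hNPB : NPBStmt E) (hTRF : TRFStmt E) : EB2Stmt E := by
  intro t C hQ U e hF ψ hψ
  obtain ⟨U', hU', hgr, -, hps⟩ := hTRF t U e hF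
  obtain ⟨ψ', hψ', hcv, hnp, -⟩ := hps ψ hψ
  obtain ⟨-, h2, h3, h4, h5⟩ := hNPB U' t hU'
  have hcov : CovLe U' 1 := by
    intro w
    -- coordinates
    set c : JJ E → ℝ := fun a => (b0 E).repr w a with hc
    have hw : ∑ a, c a • (b0 E) a = w := (b0 E).sum_repr w
    have hlin : ∀ v : E, cv U' (li w) (li v) = ∑ a, c a * cv U' (li (b0 E a)) (li v) := by
      intro v
      have e1 := (h2 (li w) (EB2_gc_li E w) v v).1
      rw [← e1]
      have e2 := h4 (JJ E) (b0 E) c [v]
      rw [hw] at e2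
      rw [e2]
      refine Finset.sum_congr rfl fun a _ => ?_
      rw [(h2 (li (b0 E a)) (EB2_gc_li E _) v v).1]
    have hsym : ∀ u v : E, cv U' (li u) (li v) = cv U' (li v) (li u) := by
      intro u v
      unfold Pool.Agent.H73.KG.cv
      rw [mul_comm (∫ x, li u x ∂(mu U'))]
      congr 2
      funext x
      rw [mul_comm]
    have e1 : cv U' (li w) (li w) = ∑ a, ∑ d, c a * c d * cv U' (li (b0 E a)) (li (b0 E d)) := by
      rw [hlin w]
      refine Finset.sum_congr rfl fun a _ => ?_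
      rw [hsym, hlin (b0 E a), Finset.mul_sum]
      refine Finset.sum_congr rfl fun d _ => ?_
      rw [hsym (b0 E d)]
      ring
    have e2 : ∀ a d : JJ E, cv U' (li (b0 E a)) (li (b0 E d)) =
        (1 : Matrix (JJ E) (JJ E) ℝ) a d - inner ℝ (e a) (e d) := by
      intro a d
      have := hgr a d
      have h6 : AX (b0 E) U' a d = cv U' (li (b0 E a)) (li (b0 E d)) :=
        (h5 (JJ E) (b0 E) a d d).2.2
      rw [h6] at this
      linarith
    have e3 : ∑ a, ∑ d, c a * c d * (1 : Matrix (JJ E) (JJ E) ℝ) a d = ‖w‖ ^ 2 := by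
      have : ‖w‖ ^ 2 = ∑ a, c a ^ 2 := by
        rw [← (b0 E).repr.norm_map w, EuclideanSpace.norm_sq_eq]
        simp [hc]
      rw [this]
      refine Finset.sum_congr rfl fun a _ => ?_
      simp [Matrix.one_apply, sq]
    have e4 : ∑ a, ∑ d, c a * c d * inner ℝ (e a) (e d) = ‖∑ a, c a • e a‖ ^ 2 := by
      rw [← real_inner_self_eq_norm_sq, sum_inner]
      refine Finset.sum_congr rfl fun a _ => ?_
      rw [inner_sum]
      refine Finset.sum_congr rfl fun d _ => ?_
      rw [real_inner_smul_left, real_inner_smul_right]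
      ring
    rw [e1]
    have e5 : ∑ a, ∑ d, c a * c d * cv U' (li (b0 E a)) (li (b0 E d)) =
        ‖w‖ ^ 2 - ‖∑ a, c a • e a‖ ^ 2 := by
      rw [← e3, ← e4, ← Finset.sum_sub_distrib]
      refine Finset.sum_congr rfl fun a _ => ?_
      rw [← Finset.sum_sub_distrib]
      refine Finset.sum_congr rfl fun d _ => ?_
      rw [e2]
      ring
    rw [e5]
    nlinarith [sq_nonneg ‖∑ a, c a • e a‖]
  have hq := hQ U' hU' hcov ψ' hψ' (JJ E) (b0 E)
  have e6 : hs e U ψ 2 = ∑ i, ∑ j, (q2 U' ψ' (b0 E i) (b0 E j)) ^ 2 := by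
    unfold hs
    rw [show (2:ℕ) = 0 + 1 + 1 from rfl, Pool.Agent.H55.KB.WS_succ]
    refine Finset.sum_congr rfl fun i _ => ?_
    rw [Pool.Agent.H55.KB.WS_succ]
    refine Finset.sum_congr rfl fun j _ => ?_
    rw [Pool.Agent.H55.KB.WS_zero, ← hnp]
    have := (h2 ψ' hψ' (b0 E i) (b0 E j)).2
    unfold np
    simp only [List.map_cons, List.map_nil]
    rw [this]
  rw [e6, ← hcv]
  exact hq

end measures

end Pool.Agent.H35.KB
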